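import Pool.Agent.Helper41.KV.GoalsD

/-!
# Project KV (`MP_66be51_an`): packet BF (pointwise bounds of the approximate solution)
-/

set_option autoImplicit false

namespace Pool.Agent.Helper94.KV

open Real MeasureTheory Pool.Agent.Helper33.KV Pool.Agent.Helper41.KV

theorem int_exp {a : ℝ} (ha : 0 < a) : Integrable (fun y : ℝ => Real.exp (-(a * |y|))) := by
  rw [← integrableOn_univ, ← Set.Iic_union_Ioi (a := (0 : ℝ))]
  refine IntegrableOn.union ?_ ?_
  · refine (integrableOn_exp_mul_Iic ha 0).congr_fun (fun y hy => ?_) measurableSet_Iic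
    have h1 : |y| = -y := abs_of_nonpos hy
    simp only [h1]
    congr 1
    ring
  · refine (integrableOn_exp_mul_Ioi (neg_lt_zero.2 ha) 0).congr_fun (fun y hy => ?_)
      measurableSet_Ioi
    have h1 : |y| = y := abs_of_nonneg (le_of_lt hy)
    simp only [h1]
    congr 1
    ring

theorem slice_smooth {v : ℝ → ℝ → ℝ} {T1 t : ℝ}
    (hv : ContDiffOn ℝ (⊤ : ℕ∞) (fun q : ℝ × ℝ => v q.1 q.2) (Set.Ioo 0 T1 ×ˢ Set.univ))
    (ht : t ∈ Set.Ioo 0 T1) : ContDiff ℝ (⊤ : ℕ∞) (v t) := by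
  rw [contDiff_iff_contDiffAt]
  intro y
  have h1 : ContDiffAt ℝ (⊤ : ℕ∞) (fun q : ℝ × ℝ => v q.1 q.2) (t, y) :=
    hv.contDiffAt ((isOpen_Ioo.prod isOpen_univ).mem_nhds ⟨ht, Set.mem_univ _⟩)
  have h2 : ContDiffAt ℝ (⊤ : ℕ∞) (fun y' : ℝ => ((t, y') : ℝ × ℝ)) y :=
    contDiffAt_const.prodMk contDiffAt_id
  exact ContDiffAt.comp (g := fun q : ℝ × ℝ => v q.1 q.2) (f := fun y' : ℝ => ((t, y') : ℝ × ℝ))
    y h1 h2

theorem slice_time {v : ℝ → ℝ → ℝ} {T1 t : ℝ}
    (hv : ContDiffOn ℝ (⊤ : ℕ∞) (fun q : ℝ × ℝ => v q.1 q.2) (Set.Ioo 0 T1 ×ˢ Set.univ))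
    (ht : t ∈ Set.Ioo 0 T1) (y : ℝ) : DifferentiableAt ℝ (fun τ => v τ y) t := by
  have h1 : ContDiffAt ℝ (⊤ : ℕ∞) (fun q : ℝ × ℝ => v q.1 q.2) (t, y) :=
    hv.contDiffAt ((isOpen_Ioo.prod isOpen_univ).mem_nhds ⟨ht, Set.mem_univ _⟩)
  have h2 : ContDiffAt ℝ (⊤ : ℕ∞) (fun τ : ℝ => ((τ, y) : ℝ × ℝ)) t :=
    contDiffAt_id.prodMk contDiffAt_const
  exact (ContDiffAt.comp (g := fun q : ℝ × ℝ => v q.1 q.2)
    (f := fun τ : ℝ => ((τ, y) : ℝ × ℝ)) t h1 h2).differentiableAt (by simp)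

/-- the weight on the left -/
theorem wt_bounds {K ρ : ℝ} (hρ : 0 < ρ) (y : ℝ) :
    0 ≤ (1 - wt K ρ y) ^ 2 ∧ (1 - wt K ρ y) ^ 2 ≤ 1 ∧
      (1 - wt K ρ y) ^ 2 ≤ ρ ^ 2 * Real.exp (-(2 * y / K)) := by
  have hg : 0 < ρ * Real.exp (-(y / K)) := by positivity
  set g := ρ * Real.exp (-(y / K)) with hgd
  have h1 : 1 - wt K ρ y = g / (1 + g) := by
    unfold wt
    rw [← hgd]
    field_simp
    ring
  have h2 : 0 ≤ g / (1 + g) := by positivity
  have h3 : g / (1 + g) ≤ 1 := by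
    rw [div_le_one (by positivity)]
    linarith
  have h4 : g / (1 + g) ≤ g := by
    rw [div_le_iff₀ (by positivity)]
    nlinarith
  rw [h1]
  refine ⟨sq_nonneg _, ?_, ?_⟩
  · nlinarith
  · have h5 : (g / (1 + g)) ^ 2 ≤ g ^ 2 := pow_le_pow_left₀ h2 h4 2
    have h6 : g ^ 2 = ρ ^ 2 * Real.exp (-(2 * y / K)) := by
      rw [hgd, mul_pow, ← Real.exp_nat_mul]
      congr 2
      push_cast
      ring
    rwa [← h6]

theorem wt_cont (K ρ : ℝ) (hρ : 0 < ρ) : Continuous (fun y => wt K ρ y) := by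
  unfold wt
  refine continuous_const.div (by fun_prop) (fun y => ?_)
  positivity

theorem one_add_mul_exp (y : ℝ) : (1 + y) * Real.exp (-y / 2) ≤ 2 := by
  have h1 : y / 2 + 1 ≤ Real.exp (y / 2) := Real.add_one_le_exp _
  have h2 : Real.exp (y / 2) * Real.exp (-y / 2) = 1 := by
    rw [← Real.exp_add]
    simp
    ring
  have h3 : 0 < Real.exp (-y / 2) := Real.exp_pos _
  have h4 : 1 + y ≤ 2 * Real.exp (y / 2) := by linarith
  calc (1 + y) * Real.exp (-y / 2) ≤ 2 * Real.exp (y / 2) * Real.exp (-y / 2) :=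
        mul_le_mul_of_nonneg_right h4 h3.le
    _ = 2 := by rw [mul_assoc, h2]; ring

theorem rpow_s {ρ : ℝ} (hρ : 0 < ρ) {r : ℝ} (m : ℕ) (hr : r = (m : ℝ) / 8) :
    ρ ^ r = (ρ ^ ((1 : ℝ) / 8)) ^ m := by
  rw [← Real.rpow_natCast, ← Real.rpow_mul hρ.le]
  congr 1
  rw [hr]
  ring

theorem sq_of_abs (a b : ℝ) (h : |a| ≤ b) : a ^ 2 ≤ b ^ 2 :=
  sq_le_sq' (by have := neg_abs_le a; linarith) ((le_abs_self a).trans h)

/-- the weight times an exponential -/
theorem wt_exp {K ρ y μ : ℝ} (hK : 64 ≤ K) (hρ : 0 < ρ) (hy : y ≤ 0) (hμ : 1 ≤ μ) :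
    (1 - wt K ρ y) ^ 2 * Real.exp (-(μ * |y|)) ≤ ρ ^ 2 * Real.exp (-(1 / K * |y|)) := by
  have hK0 : 0 < K := by linarith
  obtain ⟨w0, w1, w2⟩ := wt_bounds (K := K) hρ y
  calc (1 - wt K ρ y) ^ 2 * Real.exp (-(μ * |y|)) ≤
      ρ ^ 2 * Real.exp (-(2 * y / K)) * Real.exp (-(μ * |y|)) :=
        mul_le_mul_of_nonneg_right w2 (Real.exp_pos _).le
    _ = ρ ^ 2 * Real.exp (-(2 * y / K) + -(μ * |y|)) := by rw [mul_assoc, ← Real.exp_add]
    _ ≤ ρ ^ 2 * Real.exp (-(1 / K * |y|)) := by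
        apply mul_le_mul_of_nonneg_left _ (by positivity)
        apply Real.exp_le_exp.2
        rw [abs_of_nonpos hy]
        have h1 : 3 / K ≤ 1 := by
          rw [div_le_one hK0]
          linarith
        have h2 : 0 ≤ -y := by linarith
        have h3 : 3 / K * (-y) ≤ 1 * (-y) := mul_le_mul_of_nonneg_right h1 h2
        have h4 : 1 * (-y) ≤ μ * (-y) := mul_le_mul_of_nonneg_right hμ h2
        have e1 : -(2 * y / K) + -(μ * -y) + 1 / K * -y = 3 / K * (-y) - μ * (-y) := by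
          ring
        linarith

/-- the weighted integral of the square of a function -/
theorem left_int {K ρ s M q B : ℝ} (hK : 64 ≤ K) (hs0 : 0 < s) (hs1 : s ≤ 1) (hρ : ρ = s ^ 8)
    (hM : 0 ≤ M) (hq : 0 ≤ q) (hB : 0 ≤ B) {f g : ℝ → ℝ} (hf : Continuous f)
    (hg : ∀ y, |g y| ≤ q * Real.exp (-|y|)) (h1 : ∀ y, 0 ≤ y → |f y| ≤ M)
    (h2 : ∀ y, y ≤ 0 → |f y - g y| ≤ 2 * B * ρ)
    (h3 : ∀ y, y ≤ -(2 / s ^ 4) → |f y| ≤ B * Real.exp (-(3 / 4 * |y|))) :
    Integrable (fun y => (1 - wt K ρ y) ^ 2 * f y ^ 2) ∧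
      (∫ y, (1 - wt K ρ y) ^ 2 * f y ^ 2) ≤
        ((M ^ 2 + 2 * q ^ 2 + B ^ 2) * (∫ y : ℝ, Real.exp (-(1 / K * |y|))) + 16 * B ^ 2) *
          s ^ 12 := by
  have hK0 : 0 < K := by linarith
  have hρ0 : 0 < ρ := by rw [hρ]; positivity
  set IK : ℝ := ∫ y : ℝ, Real.exp (-(1 / K * |y|)) with hIK
  have hIK0 : 0 ≤ IK := integral_nonneg fun y => (Real.exp_pos _).le
  set D : ℝ := M ^ 2 + 2 * q ^ 2 + B ^ 2 with hD
  have hD0 : 0 ≤ D := by positivity
  have cw := wt_cont K ρ hρ0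
  have cF : Continuous (fun y => (1 - wt K ρ y) ^ 2 * f y ^ 2) := by fun_prop
  have hi1 : Integrable (fun y : ℝ => D * ρ ^ 2 * Real.exp (-(1 / K * |y|))) :=
    (int_exp (by positivity)).const_mul _
  have hi2 : Integrable (Set.indicator (Set.Icc (-(2 / s ^ 4)) 0)
      (fun _ : ℝ => 8 * B ^ 2 * ρ ^ 2)) := by
    rw [integrable_indicator_iff measurableSet_Icc]
    exact integrableOn_const (by simp)
  have hGi : Integrable (fun y : ℝ => D * ρ ^ 2 * Real.exp (-(1 / K * |y|)) +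
      Set.indicator (Set.Icc (-(2 / s ^ 4)) 0) (fun _ : ℝ => 8 * B ^ 2 * ρ ^ 2) y) :=
    hi1.add hi2
  have hGint : ∫ y, (D * ρ ^ 2 * Real.exp (-(1 / K * |y|)) +
      Set.indicator (Set.Icc (-(2 / s ^ 4)) 0) (fun _ : ℝ => 8 * B ^ 2 * ρ ^ 2) y) =
      D * ρ ^ 2 * IK + 2 / s ^ 4 * (8 * B ^ 2 * ρ ^ 2) := by
    rw [integral_add hi1 hi2, integral_const_mul, integral_indicator measurableSet_Icc,
      setIntegral_const, smul_eq_mul]
    congr 2
    rw [Measure.real, Real.volume_Icc, zero_sub, neg_neg, ENNReal.toReal_ofReal (by positivity)]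
  have hdom : ∀ y, (1 - wt K ρ y) ^ 2 * f y ^ 2 ≤ D * ρ ^ 2 * Real.exp (-(1 / K * |y|)) +
      Set.indicator (Set.Icc (-(2 / s ^ 4)) 0) (fun _ : ℝ => 8 * B ^ 2 * ρ ^ 2) y := by
    intro y
    obtain ⟨w0, w1, w2⟩ := wt_bounds (K := K) hρ0 y
    have hind0 : 0 ≤ Set.indicator (Set.Icc (-(2 / s ^ 4)) 0)
        (fun _ : ℝ => 8 * B ^ 2 * ρ ^ 2) y :=
      Set.indicator_nonneg (fun _ _ => by positivity) y
    have hX : 0 ≤ ρ ^ 2 * Real.exp (-(1 / K * |y|)) := by positivity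
    rcases le_total 0 y with hy | hy
    · have b2 : (1 - wt K ρ y) ^ 2 ≤ ρ ^ 2 * Real.exp (-(1 / K * |y|)) := by
        refine w2.trans ?_
        apply mul_le_mul_of_nonneg_left _ (by positivity)
        apply Real.exp_le_exp.2
        rw [abs_of_nonneg hy]
        have : 0 ≤ y / K := by positivity
        have e1 : 2 * y / K = 2 * (y / K) := by ring
        have e2 : 1 / K * y = y / K := by ring
        rw [e1, e2]
        linarith
      have b1 := sq_of_abs _ _ (h1 y hy)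
      have b3 : (1 - wt K ρ y) ^ 2 * f y ^ 2 ≤ ρ ^ 2 * Real.exp (-(1 / K * |y|)) * M ^ 2 :=
        mul_le_mul b2 b1 (sq_nonneg _) hX
      have b4 : ρ ^ 2 * Real.exp (-(1 / K * |y|)) * M ^ 2 ≤
          ρ ^ 2 * Real.exp (-(1 / K * |y|)) * D :=
        mul_le_mul_of_nonneg_left (by rw [hD]; nlinarith [sq_nonneg q, sq_nonneg B]) hX
      linarith
    · rcases le_total (-(2 / s ^ 4)) y with hy2 | hy2
      · have hmem : y ∈ Set.Icc (-(2 / s ^ 4)) 0 := ⟨hy2, hy⟩
        rw [Set.indicator_of_mem hmem]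
        have c1 : f y ^ 2 ≤ 2 * g y ^ 2 + 2 * (f y - g y) ^ 2 := by
          nlinarith [sq_nonneg (f y - 2 * g y)]
        have c2 := sq_of_abs _ _ (hg y)
        have c3 := sq_of_abs _ _ (h2 y hy)
        have c4 : (q * Real.exp (-|y|)) ^ 2 = q ^ 2 * Real.exp (-(2 * |y|)) := by
          rw [mul_pow, ← Real.exp_nat_mul]
          congr 2
          push_cast
          ring
        have c5 := wt_exp (μ := 2) hK hρ0 hy (by norm_num)
        have c6 : (1 - wt K ρ y) ^ 2 * (f y - g y) ^ 2 ≤ 1 * (2 * B * ρ) ^ 2 :=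
          mul_le_mul w1 c3 (sq_nonneg _) zero_le_one
        have c7 : (1 - wt K ρ y) ^ 2 * g y ^ 2 ≤
            q ^ 2 * (ρ ^ 2 * Real.exp (-(1 / K * |y|))) := by
          calc (1 - wt K ρ y) ^ 2 * g y ^ 2
              ≤ (1 - wt K ρ y) ^ 2 * (q ^ 2 * Real.exp (-(2 * |y|))) := by
                rw [← c4]
                exact mul_le_mul_of_nonneg_left c2 w0
            _ = q ^ 2 * ((1 - wt K ρ y) ^ 2 * Real.exp (-(2 * |y|))) := by ring
            _ ≤ _ := mul_le_mul_of_nonneg_left c5 (sq_nonneg _)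
        have c8 := mul_le_mul_of_nonneg_left c1 w0
        have c9 : 2 * q ^ 2 * (ρ ^ 2 * Real.exp (-(1 / K * |y|))) ≤
            D * (ρ ^ 2 * Real.exp (-(1 / K * |y|))) :=
          mul_le_mul_of_nonneg_right (by rw [hD]; nlinarith [sq_nonneg M, sq_nonneg B]) hX
        have c10 : (2 * B * ρ) ^ 2 = 4 * B ^ 2 * ρ ^ 2 := by ring
        rw [c10] at c6
        linarith
      · have c2 := sq_of_abs _ _ (h3 y hy2)
        have c4 : (B * Real.exp (-(3 / 4 * |y|))) ^ 2 =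
            B ^ 2 * Real.exp (-(3 / 2 * |y|)) := by
          rw [mul_pow, ← Real.exp_nat_mul]
          congr 2
          push_cast
          ring
        have c5 := wt_exp (μ := 3 / 2) hK hρ0 hy (by norm_num)
        have c7 : (1 - wt K ρ y) ^ 2 * f y ^ 2 ≤
            B ^ 2 * (ρ ^ 2 * Real.exp (-(1 / K * |y|))) := by
          calc (1 - wt K ρ y) ^ 2 * f y ^ 2
              ≤ (1 - wt K ρ y) ^ 2 * (B ^ 2 * Real.exp (-(3 / 2 * |y|))) := by
                rw [← c4]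
                exact mul_le_mul_of_nonneg_left c2 w0
            _ = B ^ 2 * ((1 - wt K ρ y) ^ 2 * Real.exp (-(3 / 2 * |y|))) := by ring
            _ ≤ _ := mul_le_mul_of_nonneg_left c5 (sq_nonneg _)
        have c9 : B ^ 2 * (ρ ^ 2 * Real.exp (-(1 / K * |y|))) ≤
            D * (ρ ^ 2 * Real.exp (-(1 / K * |y|))) :=
          mul_le_mul_of_nonneg_right (by rw [hD]; nlinarith [sq_nonneg M, sq_nonneg q]) hX
        linarith
  have hnn : ∀ y, 0 ≤ (1 - wt K ρ y) ^ 2 * f y ^ 2 := fun y => by positivity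
  have hint : Integrable (fun y => (1 - wt K ρ y) ^ 2 * f y ^ 2) := by
    refine hGi.mono' cF.aestronglyMeasurable (Filter.Eventually.of_forall fun y => ?_)
    rw [Real.norm_of_nonneg (hnn y)]
    exact hdom y
  refine ⟨hint, ?_⟩
  have h4 := integral_mono hint hGi hdom
  rw [hGint] at h4
  refine h4.trans ?_
  have h5 : ρ ^ 2 = s ^ 16 := by rw [hρ]; ring
  have h6 : 2 / s ^ 4 * (8 * B ^ 2 * ρ ^ 2) = 16 * B ^ 2 * s ^ 12 := by
    rw [h5]
    field_simp
    ring
  have h7 : D * ρ ^ 2 * IK ≤ D * IK * s ^ 12 := by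
    rw [h5]
    have : s ^ 16 ≤ s ^ 12 := pow_le_pow_of_le_one hs0.le hs1 (by norm_num)
    have h8 : D * IK * s ^ 16 ≤ D * IK * s ^ 12 := mul_le_mul_of_nonneg_left this (by positivity)
    linarith
  rw [h6]
  linarith

/-- Packet `BF`. -/
theorem bf (hQ : S_QF) (hC : S_CURV) (hB : S_FHB) : S_BF := by
  obtain ⟨q1, q2, q3, q4, q5, q6, q7, q8⟩ := hQ
  obtain ⟨Q0, hQ0⟩ := q7 0
  obtain ⟨Q1, hQ1⟩ := q7 1
  obtain ⟨Q2, hQ2⟩ := q7 2
  obtain ⟨q, hq0, hqQ0, hqQ1, hqQ2⟩ : ∃ q : ℝ, 0 ≤ q ∧ Q0 ≤ q ∧ Q1 ≤ q ∧ Q2 ≤ q :=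
    ⟨max 0 (max Q0 (max Q1 Q2)), le_max_left _ _, (le_max_left _ _).trans (le_max_right _ _),
      ((le_max_left _ _).trans (le_max_right _ _)).trans (le_max_right _ _),
      ((le_max_right _ _).trans (le_max_right _ _)).trans (le_max_right _ _)⟩
  refine ⟨2 * q + 2, ?_⟩
  intro α K T0 C0 T1 v f0 n hα0 hα1 hK hf0 hT0 hT01 hv hU
  obtain ⟨hcurv, -, -, -, hsmall, -⟩ := hC α hα0 hα1
  obtain ⟨C1, hF⟩ := hB α f0 n hα0 hα1 hf0
  -- constants
  obtain ⟨B, hB0, hBC0, hBC1⟩ : ∃ B : ℝ, 0 ≤ B ∧ C0 ≤ B ∧ C1 ≤ B :=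
    ⟨max 0 (max C0 C1), le_max_left _ _, (le_max_left _ _).trans (le_max_right _ _),
      (le_max_right _ _).trans (le_max_right _ _)⟩
  set A : ℝ := 4 * B + 1 with hA
  have hA1 : 1 ≤ A := by linarith
  -- the bounds
  have hqe : ∀ y : ℝ, Real.exp (-|y|) ≤ Real.exp (-|y| / 2) := fun y =>
    Real.exp_le_exp.2 (by have := abs_nonneg y; linarith)
  set ε' : ℝ := min (1 / 2) (1 / (2 * A)) with hε'
  have hε'0 : 0 < ε' := lt_min (by norm_num) (by positivity)
  obtain ⟨Ta, hTa0, hTa⟩ := hsmall (min 1 (ε' ^ 8)) (lt_min one_pos (by positivity))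
  have hK0 : 0 < K := by linarith
  set IK : ℝ := ∫ y : ℝ, Real.exp (-(1 / K * |y|)) with hIK
  have hIK0 : 0 ≤ IK := integral_nonneg fun y => (Real.exp_pos _).le
  obtain ⟨D, hD⟩ : ∃ D : ℝ, D = 3 * (((q + 2 * A) ^ 2 + 2 * q ^ 2 + B ^ 2) * IK + 16 * B ^ 2) :=
    ⟨_, rfl⟩
  have hD0 : 0 ≤ D := by rw [hD]; positivity
  refine ⟨min Ta T0, 2 * q + 2 * A + D, lt_min hTa0 hT0, min_le_right _ _, ?_⟩
  intro t ht T' htT' hT'
  have ht0 : 0 < t := ht.1
  have htTa : t ≤ Ta := ht.2.trans (min_le_left _ _)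
  have htT0 : t ≤ T0 := ht.2.trans (min_le_right _ _)
  have htI : t ∈ Set.Ioc 0 T0 := ⟨ht0, htT0⟩
  have htJ : t ∈ Set.Ioo 0 T1 := ⟨ht0, lt_of_le_of_lt htT0 hT01⟩
  obtain ⟨hsig0, hlam0, hrho0, -⟩ := hcurv t ht0
  obtain ⟨hs1, hl1, hr1⟩ := hTa t ht0 htTa
  have hsig1 : sig α t ≤ 1 := hs1.le.trans (min_le_left _ _)
  set ρ := rho α t with hρ
  set s : ℝ := ρ ^ ((1 : ℝ) / 8) with hs
  have hs0 : 0 < s := Real.rpow_pos_of_pos hrho0 _
  have hs8 : ρ = s ^ 8 := by
    have := rpow_s hrho0 (r := 1) 8 (by norm_num)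
    rwa [Real.rpow_one] at this
  have hsε : s < ε' := by
    have h1 : s ^ 8 < ε' ^ 8 := by
      rw [← hs8]
      exact lt_of_lt_of_le hr1 (min_le_right _ _)
    exact lt_of_pow_lt_pow_left₀ 8 hε'0.le h1
  have hs2 : s ≤ 1 / 2 := hsε.le.trans (min_le_left _ _)
  have hs1' : s ≤ 1 := by linarith
  have hAs : 2 * A * s ≤ 1 := by
    have h1 : s ≤ 1 / (2 * A) := hsε.le.trans (min_le_right _ _)
    rw [le_div_iff₀ (by positivity)] at h1
    linarith
  have e12 : ρ ^ ((1 : ℝ) / 2) = s ^ 4 := rpow_s hrho0 4 (by norm_num)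
  have e32 : ρ ^ ((3 : ℝ) / 2) = s ^ 12 := rpow_s hrho0 12 (by norm_num)
  have e54 : ρ ^ ((5 : ℝ) / 4) = s ^ 10 := rpow_s hrho0 10 (by norm_num)
  have e74 : ρ ^ ((7 : ℝ) / 4) = s ^ 14 := rpow_s hrho0 14 (by norm_num)
  have e78 : ρ ^ ((7 : ℝ) / 8) = s ^ 7 := rpow_s hrho0 7 (by norm_num)
  have e34 : ρ ^ ((3 : ℝ) / 4) = s ^ 6 := rpow_s hrho0 6 (by norm_num)
  have em12 : ρ ^ (-((1 : ℝ) / 2)) = 1 / s ^ 4 := by
    rw [Real.rpow_neg hrho0.le, e12, one_div]
  have pw : ∀ i j : ℕ, j ≤ i → s ^ i ≤ s ^ j := fun i j h =>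
    pow_le_pow_of_le_one hs0.le hs1' h
  have hvs : ContDiff ℝ (⊤ : ℕ∞) (v t) := slice_smooth hv htJ
  have hvt : ∀ y, DifferentiableAt ℝ (fun τ => v τ y) t := slice_time hv htJ
  have hdw : ∀ y, derivWithin (fun τ => v τ y) (Set.Ioc 0 T') t = deriv (fun τ => v τ y) t :=
    fun y => (hvt y).derivWithin (uniqueDiffOn_Ioc 0 T' t ⟨ht0, htT'⟩)
  -- differences
  have hd1 : ∀ y, deriv (fun y' => v t y' - Q y') y =
      iteratedDeriv 1 (v t) y - iteratedDeriv 1 Q y := by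
    intro y
    rw [iteratedDeriv_one, iteratedDeriv_one]
    exact deriv_fun_sub (hvs.differentiable (by simp) y) (q1.differentiable (by simp) y)
  have hd2 : ∀ y, iteratedDeriv 2 (fun y' => v t y' - Q y') y =
      iteratedDeriv 2 (v t) y - iteratedDeriv 2 Q y := by
    intro y
    have h1 : deriv (fun y' => v t y' - Q y') = fun y => deriv (v t) y - deriv Q y := by
      funext z
      exact deriv_fun_sub (hvs.differentiable (by simp) z) (q1.differentiable (by simp) z)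
    have h2 : Differentiable ℝ (deriv (v t)) := by
      have := hvs.differentiable_iteratedDeriv 1 (by simp)
      rwa [iteratedDeriv_one] at this
    have h3 : Differentiable ℝ (deriv Q) := by
      have := q1.differentiable_iteratedDeriv 1 (by simp)
      rwa [iteratedDeriv_one] at this
    have id2 : ∀ f : ℝ → ℝ, iteratedDeriv 2 f = deriv (deriv f) := fun f => by
      rw [iteratedDeriv_succ, iteratedDeriv_one]
    rw [id2, id2, id2, h1]
    exact deriv_fun_sub (h2 y) (h3 y)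
  -- bounds of the right field
  have hFh : ∀ y, 0 ≤ y → |iteratedDeriv 0 (Fhat α f0 n t) y| ≤ B * s ^ 6 ∧
      |iteratedDeriv 1 (Fhat α f0 n t) y| ≤ B * s ^ 14 ∧
      |iteratedDeriv 2 (Fhat α f0 n t) y| ≤ B * s ^ 22 ∧
      |y| * |iteratedDeriv 1 (Fhat α f0 n t) y| ≤ B * s ^ 6 ∧
      lam α t ^ 3 * |deriv (fun τ => Fhat α f0 n τ y) t| ≤ B * s ^ 14 := by
    intro y hy
    obtain ⟨f1, f2, f3, -⟩ := hF t y ht0 hsig1 (by
      have := mul_nonneg hlam0.le hy
      linarith)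
    have g0 := f1 0 (by norm_num)
    have g1 := f1 1 (by norm_num)
    have g2 := f1 2 (by norm_num)
    rw [rpow_s hrho0 6 (by norm_num)] at g0
    rw [rpow_s hrho0 14 (by norm_num)] at g1
    rw [rpow_s hrho0 22 (by norm_num)] at g2
    rw [rpow_s hrho0 6 (by norm_num)] at f2
    rw [rpow_s hrho0 14 (by norm_num)] at f3
    refine ⟨g0.trans ?_, g1.trans ?_, g2.trans ?_, ?_, f3.trans ?_⟩
    · exact mul_le_mul_of_nonneg_right hBC1 (by positivity)
    · exact mul_le_mul_of_nonneg_right hBC1 (by positivity)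
    · exact mul_le_mul_of_nonneg_right hBC1 (by positivity)
    · rw [iteratedDeriv_one]
      exact f2.trans (mul_le_mul_of_nonneg_right hBC1 (by positivity))
    · exact mul_le_mul_of_nonneg_right hBC1 (by positivity)
  have s_nonneg : ∀ i : ℕ, 0 ≤ s ^ i := fun i => pow_nonneg hs0.le i
  have hex : ∀ y : ℝ, 0 < Real.exp (-|y| / 2) ∧ Real.exp (-|y| / 2) ≤ 1 := fun y =>
    ⟨Real.exp_pos _, Real.exp_le_one_iff.2 (by have := abs_nonneg y; linarith)⟩
  -- the basic bounds of `v - Q`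
  have U0 : ∀ y, |v t y - Q y| ≤ A * s ^ 6 := by
    intro y
    rcases le_total y 0 with hy | hy
    · have h1 := hU.neg0 t htI y hy
      rw [← hρ, hs8] at h1
      calc |v t y - Q y| ≤ C0 * s ^ 8 := h1
        _ ≤ B * s ^ 6 := mul_le_mul hBC0 (pw 8 6 (by norm_num)) (s_nonneg _) hB0
        _ ≤ A * s ^ 6 := mul_le_mul_of_nonneg_right (by linarith) (s_nonneg _)
    · have h1 := hU.posk t htI y hy 0 (by norm_num)
      have h2 := (hFh y hy).1
      rw [iteratedDeriv_zero, iteratedDeriv_zero, ← hρ, e78] at h1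
      have h3 : C0 * s ^ 7 * Real.exp (-y / 2) ≤ B * s ^ 6 := by
        have h4 := (hex y).2
        rw [abs_of_nonneg hy] at h4
        calc C0 * s ^ 7 * Real.exp (-y / 2) ≤ B * s ^ 7 * Real.exp (-y / 2) := by gcongr
          _ ≤ B * s ^ 6 * 1 := by
              apply mul_le_mul _ h4 (Real.exp_pos _).le (by positivity)
              exact mul_le_mul_of_nonneg_left (pw 7 6 (by norm_num)) hB0
          _ = B * s ^ 6 := mul_one _
      have h5 : |v t y - Q y| ≤ |v t y - Q y - iteratedDeriv 0 (Fhat α f0 n t) y| +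
          |iteratedDeriv 0 (Fhat α f0 n t) y| := by
        have := abs_add_le (v t y - Q y - iteratedDeriv 0 (Fhat α f0 n t) y)
          (iteratedDeriv 0 (Fhat α f0 n t) y)
        rwa [sub_add_cancel] at this
      have h6 : 0 ≤ s ^ 6 := s_nonneg 6
      rw [hA]
      nlinarith
  have U1 : ∀ y, ∀ k : ℕ, 1 ≤ k → k ≤ 2 → |iteratedDeriv k (v t) y - iteratedDeriv k Q y| ≤
      A * (s ^ 7 * Real.exp (-|y| / 2) + s ^ 12) := by
    intro y k hk1 hk2
    obtain ⟨he0, he1⟩ := hex y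
    rcases le_total y 0 with hy | hy
    · have h1 := hU.negk t htI y hy k hk1 (by omega)
      rw [← hρ, e32, hs8] at h1
      calc |iteratedDeriv k (v t) y - iteratedDeriv k Q y|
          ≤ C0 * (s ^ 8 * Real.exp (-|y| / 2) + s ^ 12) := h1
        _ ≤ A * (s ^ 7 * Real.exp (-|y| / 2) + s ^ 12) := by
            have h2 := pw 8 7 (by norm_num)
            have h3 : 0 ≤ s ^ 8 * Real.exp (-|y| / 2) + s ^ 12 := by positivity
            have h4 : s ^ 8 * Real.exp (-|y| / 2) + s ^ 12 ≤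
                s ^ 7 * Real.exp (-|y| / 2) + s ^ 12 := by gcongr
            exact mul_le_mul (by linarith) h4 h3 (by linarith)
    · have h1 := hU.posk t htI y hy k (by omega)
      rw [← hρ, e78] at h1
      have h2 : |iteratedDeriv k (Fhat α f0 n t) y| ≤ B * s ^ 12 := by
        obtain ⟨-, g1, g2, -⟩ := hFh y hy
        interval_cases k
        · exact g1.trans (mul_le_mul_of_nonneg_left (pw 14 12 (by norm_num)) hB0)
        · exact g2.trans (mul_le_mul_of_nonneg_left (pw 22 12 (by norm_num)) hB0)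
      have h5 : |iteratedDeriv k (v t) y - iteratedDeriv k Q y| ≤
          |iteratedDeriv k (v t) y - iteratedDeriv k Q y - iteratedDeriv k (Fhat α f0 n t) y| +
          |iteratedDeriv k (Fhat α f0 n t) y| := by
        have := abs_add_le (iteratedDeriv k (v t) y - iteratedDeriv k Q y -
          iteratedDeriv k (Fhat α f0 n t) y) (iteratedDeriv k (Fhat α f0 n t) y)
        rwa [sub_add_cancel] at this
      have h6 : C0 * s ^ 7 * Real.exp (-y / 2) ≤ A * (s ^ 7 * Real.exp (-|y| / 2)) := by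
        rw [abs_of_nonneg hy]
        have : C0 * (s ^ 7 * Real.exp (-y / 2)) ≤ A * (s ^ 7 * Real.exp (-y / 2)) :=
          mul_le_mul_of_nonneg_right (by linarith) (by positivity)
        linarith
      have h7 : B * s ^ 12 ≤ A * s ^ 12 := mul_le_mul_of_nonneg_right (by linarith) (s_nonneg _)
      linarith
  have U2 : ∀ y, (1 + |y|) * |iteratedDeriv 1 (v t) y - iteratedDeriv 1 Q y| ≤ A * s ^ 6 := by
    intro y
    obtain ⟨he0, he1⟩ := hex y
    rcases le_total y 0 with hy | hy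
    · have h1 := hU.negk t htI y hy 1 le_rfl (by norm_num)
      have h2 := hU.negy t htI y hy 1 le_rfl (by norm_num)
      rw [← hρ, e32, hs8] at h1
      rw [← hρ, hs8] at h2
      have h3 : C0 * (s ^ 8 * Real.exp (-|y| / 2) + s ^ 12) ≤ B * (2 * s ^ 6) := by
        have h4 : s ^ 8 * Real.exp (-|y| / 2) ≤ s ^ 6 * 1 :=
          mul_le_mul (pw 8 6 (by norm_num)) he1 he0.le (s_nonneg _)
        have h5 := pw 12 6 (by norm_num)
        exact mul_le_mul hBC0 (by linarith) (by positivity) hB0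
      have h6 : C0 * s ^ 8 ≤ B * s ^ 6 := mul_le_mul hBC0 (pw 8 6 (by norm_num)) (s_nonneg _) hB0
      have h7 : 0 ≤ s ^ 6 := s_nonneg 6
      rw [hA]
      nlinarith
    · have h1 := hU.posk t htI y hy 1 (by norm_num)
      rw [← hρ, e78] at h1
      obtain ⟨-, g1, -, g3, -⟩ := hFh y hy
      have h5 : |iteratedDeriv 1 (v t) y - iteratedDeriv 1 Q y| ≤
          |iteratedDeriv 1 (v t) y - iteratedDeriv 1 Q y - iteratedDeriv 1 (Fhat α f0 n t) y| +
          |iteratedDeriv 1 (Fhat α f0 n t) y| := by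
        have := abs_add_le (iteratedDeriv 1 (v t) y - iteratedDeriv 1 Q y -
          iteratedDeriv 1 (Fhat α f0 n t) y) (iteratedDeriv 1 (Fhat α f0 n t) y)
        rwa [sub_add_cancel] at this
      have h8 := one_add_mul_exp y
      have h9 : (1 + |y|) * (C0 * s ^ 7 * Real.exp (-y / 2)) ≤ B * (2 * s ^ 6) := by
        rw [abs_of_nonneg hy]
        calc (1 + y) * (C0 * s ^ 7 * Real.exp (-y / 2))
            = C0 * (s ^ 7 * ((1 + y) * Real.exp (-y / 2))) := by ring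
          _ ≤ B * (s ^ 6 * 2) := by
              have : 0 ≤ (1 + y) * Real.exp (-y / 2) := by positivity
              apply mul_le_mul hBC0 _ (by positivity) hB0
              exact mul_le_mul (pw 7 6 (by norm_num)) h8 this (s_nonneg _)
          _ = B * (2 * s ^ 6) := by ring
      have h10 : (1 + |y|) * |iteratedDeriv 1 (v t) y - iteratedDeriv 1 Q y -
          iteratedDeriv 1 (Fhat α f0 n t) y| ≤ B * (2 * s ^ 6) :=
        (mul_le_mul_of_nonneg_left h1 (by positivity)).trans h9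
      have h11 : |iteratedDeriv 1 (Fhat α f0 n t) y| ≤ B * s ^ 6 :=
        g1.trans (mul_le_mul_of_nonneg_left (pw 14 6 (by norm_num)) hB0)
      have h12 : (1 + |y|) * |iteratedDeriv 1 (v t) y - iteratedDeriv 1 Q y| ≤
          (1 + |y|) * |iteratedDeriv 1 (v t) y - iteratedDeriv 1 Q y -
            iteratedDeriv 1 (Fhat α f0 n t) y| +
          (|iteratedDeriv 1 (Fhat α f0 n t) y| + |y| * |iteratedDeriv 1 (Fhat α f0 n t) y|) := by
        have := mul_le_mul_of_nonneg_left h5 (by positivity : 0 ≤ 1 + |y|)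
        linarith
      have h7 : 0 ≤ s ^ 6 := s_nonneg 6
      rw [hA]
      nlinarith
  have U3 : ∀ y, lam α t ^ 3 * |deriv (fun τ => v τ y) t| ≤ A * s ^ 14 := by
    intro y
    rcases le_total y 0 with hy | hy
    · have h1 := (hU.negt t htI y hy).1
      rw [← hρ, e74] at h1
      exact h1.trans (mul_le_mul_of_nonneg_right (by linarith) (s_nonneg _))
    · have h1 := (hU.post t htI y hy).1
      rw [← hρ, e74] at h1
      obtain ⟨-, -, -, -, g4⟩ := hFh y hy
      have h2 : lam α t ^ 3 * |deriv (fun τ => v τ y) t| ≤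
          lam α t ^ 3 * |deriv (fun τ => v τ y) t - deriv (fun τ => Fhat α f0 n τ y) t| +
          lam α t ^ 3 * |deriv (fun τ => Fhat α f0 n τ y) t| := by
        rw [← mul_add]
        apply mul_le_mul_of_nonneg_left _ (by positivity)
        have := abs_add_le (deriv (fun τ => v τ y) t - deriv (fun τ => Fhat α f0 n τ y) t)
          (deriv (fun τ => Fhat α f0 n τ y) t)
        rwa [sub_add_cancel] at this
      have h3 : C0 * s ^ 14 * Real.exp (-y / 2) ≤ B * s ^ 14 := by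
        have h4 := (hex y).2
        rw [abs_of_nonneg hy] at h4
        calc C0 * s ^ 14 * Real.exp (-y / 2) ≤ B * s ^ 14 * Real.exp (-y / 2) := by gcongr
          _ ≤ B * s ^ 14 * 1 := mul_le_mul_of_nonneg_left h4 (by positivity)
          _ = B * s ^ 14 := mul_one _
      have h7 : 0 ≤ s ^ 14 := s_nonneg 14
      rw [hA]
      nlinarith
  -- bounds of `Q`
  have R0 : ∀ y, |Q y| ≤ q * Real.exp (-|y|) := fun y => by
    have h1 := hQ0 y
    rw [iteratedDeriv_zero] at h1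
    exact h1.trans (mul_le_mul_of_nonneg_right hqQ0 (Real.exp_pos _).le)
  have R1 : ∀ y, |iteratedDeriv 1 Q y| ≤ q * Real.exp (-|y|) := fun y =>
    (hQ1 y).trans (mul_le_mul_of_nonneg_right hqQ1 (Real.exp_pos _).le)
  have R2 : ∀ y, |iteratedDeriv 2 Q y| ≤ q * Real.exp (-|y|) := fun y =>
    (hQ2 y).trans (mul_le_mul_of_nonneg_right hqQ2 (Real.exp_pos _).le)
  have tri : ∀ a b : ℝ, |a| ≤ |b| + |a - b| := fun a b => by
    have := abs_add_le b (a - b)
    rwa [add_sub_cancel] at this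
  have hAs4 : ∀ i j : ℕ, j + 1 ≤ i → 2 * A * s ^ i ≤ s ^ j := by
    intro i j hij
    calc 2 * A * s ^ i ≤ 2 * A * s ^ (j + 1) :=
          mul_le_mul_of_nonneg_left (pw i (j + 1) hij) (by positivity)
      _ = (2 * A * s) * s ^ j := by ring
      _ ≤ 1 * s ^ j := mul_le_mul_of_nonneg_right hAs (s_nonneg _)
      _ = s ^ j := one_mul _
  have hA_nonneg : 0 ≤ A := by linarith
  refine ⟨fun y => ?_, ?_⟩
  · obtain ⟨he0, he1⟩ := hex y
    have hqy := hqe y
    have hu0 := U0 y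
    have hu1 := U1 y 1 le_rfl (by norm_num)
    have hu2 := U1 y 2 (by norm_num) le_rfl
    have hu3 := U2 y
    have hu4 := U3 y
    have hbig : ∀ X : ℝ, 0 ≤ X → (2 * q + 2 * A) * X ≤
        (2 * q + 2 * A + D) * X := fun X hX =>
      mul_le_mul_of_nonneg_right (by linarith) hX
    have hqE : q * Real.exp (-|y|) ≤ q * Real.exp (-|y| / 2) := mul_le_mul_of_nonneg_left hqy hq0
    have hqE0 : 0 ≤ q * Real.exp (-|y| / 2) := by positivity
    have hA7 : A * s ^ 7 ≤ 1 := by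
      have h1 := hAs4 7 0 (by norm_num)
      rw [pow_zero] at h1
      have h2 : 0 ≤ A * s ^ 7 := by positivity
      linarith
    have hA12 : A * s ^ 12 ≤ s ^ 10 := by
      have h1 := hAs4 12 10 (by norm_num)
      have h2 : 0 ≤ A * s ^ 12 := by positivity
      linarith
    have hA6 : A * s ^ 6 ≤ s ^ 4 := by
      have h1 := hAs4 6 4 (by norm_num)
      have h2 : 0 ≤ A * s ^ 6 := by positivity
      linarith
    have hder : ∀ k : ℕ, 1 ≤ k → k ≤ 2 → |iteratedDeriv k Q y| ≤ q * Real.exp (-|y|) →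
        |iteratedDeriv k (v t) y| ≤ (2 * q + 2) * (Real.exp (-|y| / 2) + s ^ 10) := by
      intro k hk1 hk2 hk3
      have h1 := tri (iteratedDeriv k (v t) y) (iteratedDeriv k Q y)
      have h2 := U1 y k hk1 hk2
      have h3 : A * s ^ 7 * Real.exp (-|y| / 2) ≤ 1 * Real.exp (-|y| / 2) :=
        mul_le_mul_of_nonneg_right hA7 he0.le
      have h4 : 0 ≤ (2 * q + 1) * s ^ 10 := by positivity
      nlinarith
    rw [e12, e54, hdw, hd1, hd2, ← iteratedDeriv_one (f := v t)]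
    refine ⟨?_, ?_, hder 1 le_rfl (by norm_num) (R1 y), hder 2 (by norm_num) le_rfl (R2 y),
      ?_, ?_, ?_, ?_, ?_, ?_⟩
    · have h1 := tri (v t y) (Q y)
      have h2 := R0 y
      have h4 : 0 ≤ (2 * q + 1) * s ^ 4 := by positivity
      nlinarith
    · have h1 := tri (iteratedDeriv 1 (v t) y) (iteratedDeriv 1 Q y)
      have h2 := mul_le_mul_of_nonneg_left h1 (by positivity : 0 ≤ 1 + |y|)
      have h3 := mul_le_mul_of_nonneg_left (R1 y) (by positivity : 0 ≤ 1 + |y|)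
      have h5 : (1 + |y|) * (q * Real.exp (-|y|)) ≤ 2 * q * Real.exp (-|y| / 2) := by
        have h6 := one_add_mul_exp |y|
        have h7 : Real.exp (-|y|) = Real.exp (-|y| / 2) * Real.exp (-|y| / 2) := by
          rw [← Real.exp_add]
          congr 1
          ring
        calc (1 + |y|) * (q * Real.exp (-|y|))
            = q * Real.exp (-|y| / 2) * ((1 + |y|) * Real.exp (-|y| / 2)) := by rw [h7]; ring
          _ ≤ q * Real.exp (-|y| / 2) * 2 := mul_le_mul_of_nonneg_left h6 hqE0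
          _ = 2 * q * Real.exp (-|y| / 2) := by ring
      have h9 : 0 ≤ (2 * q + 1) * s ^ 4 := by positivity
      nlinarith
    · intro hy
      refine le_trans ?_ (hbig _ hrho0.le)
      have h1 := hU.neg0 t htI y hy
      have h2 : C0 * ρ ≤ (2 * q + 2 * A) * ρ :=
        mul_le_mul_of_nonneg_right (by linarith) hrho0.le
      exact h1.trans h2
    · intro hy k hk
      have h1 : y ≤ -(2 * rho α t ^ (-((1 : ℝ) / 2))) := by
        rw [← hρ, em12]
        refine hy.trans ?_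
        rw [hs8, neg_div, neg_le_neg_iff]
        have h3 : s ^ 4 ≤ 1 / 4 := by
          calc s ^ 4 ≤ (1 / 2 : ℝ) ^ 4 := pow_le_pow_left₀ hs0.le hs2 4
            _ ≤ 1 / 4 := by norm_num
        rw [mul_one_div, div_le_div_iff₀ (by positivity) (by positivity)]
        have h4 : s ^ 8 = s ^ 4 * s ^ 4 := by ring
        rw [h4]
        have h5 : 0 ≤ s ^ 4 := s_nonneg 4
        nlinarith
      have h2 := (hU.tail t htI y h1).1 k (by omega)
      refine h2.trans ?_
      have h3 : Real.exp (-(3 / 4 * |y|)) ≤ Real.exp (-|y| / 2) :=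
        Real.exp_le_exp.2 (by have := abs_nonneg y; linarith)
      calc C0 * Real.exp (-(3 / 4 * |y|)) ≤ (2 * q + 2 * A) * Real.exp (-(3 / 4 * |y|)) :=
            mul_le_mul_of_nonneg_right (by linarith) (Real.exp_pos _).le
        _ ≤ (2 * q + 2 * A) * Real.exp (-|y| / 2) :=
            mul_le_mul_of_nonneg_left h3 (by positivity)
        _ ≤ _ := hbig _ he0.le
    · refine hu0.trans ?_
      have h1 := hAs4 6 4 (by norm_num)
      have h2 : 0 ≤ A * s ^ 6 := by positivity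
      linarith
    · refine hu3.trans ?_
      have h1 := hAs4 6 4 (by norm_num)
      have h2 : 0 ≤ A * s ^ 6 := by positivity
      linarith
    · refine hu2.trans ?_
      have h1 := hAs4 7 4 (by norm_num)
      have h3 : s ^ 12 ≤ s ^ 7 := pw 12 7 (by norm_num)
      have hsE2 : s ^ 7 * Real.exp (-|y| / 2) ≤ s ^ 7 := mul_le_of_le_one_right (s_nonneg _) he1
      have h4 : A * (s ^ 7 * Real.exp (-|y| / 2) + s ^ 12) ≤ A * (2 * s ^ 7) :=
        mul_le_mul_of_nonneg_left (by linarith) hA_nonneg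
      linarith
    · refine hu4.trans ?_
      have h1 := hAs4 14 10 (by norm_num)
      have h2 : 0 ≤ A * s ^ 14 := by positivity
      linarith
  · -- the integral on the left
    have id2 : ∀ f : ℝ → ℝ, iteratedDeriv 2 f = deriv (deriv f) := fun f => by
      rw [iteratedDeriv_succ, iteratedDeriv_one]
    have c0 : Continuous (v t) := hvs.continuous
    have c1 : Continuous (deriv (v t)) := by
      have := (hvs.differentiable_iteratedDeriv 1 (by simp)).continuous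
      rwa [iteratedDeriv_one] at this
    have c2 : Continuous (iteratedDeriv 2 (v t)) :=
      ContDiff.continuous_iteratedDeriv (n := ((2 : ℕ) : WithTop ℕ∞)) 2 (contDiff_infty.1 hvs 2)
        le_rfl
    have b0 : ∀ y, 0 ≤ y → |v t y| ≤ q + 2 * A := by
      intro y _
      have h1 := tri (v t y) (Q y)
      have h2 := R0 y
      have h3 := U0 y
      have h4 : q * Real.exp (-|y|) ≤ q :=
        mul_le_of_le_one_right hq0 ((hqe y).trans (hex y).2)
      have h5 : A * s ^ 6 ≤ A := mul_le_of_le_one_right hA_nonneg (pow_le_one₀ hs0.le hs1')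
      linarith
    have b1 : ∀ k : ℕ, 1 ≤ k → k ≤ 2 → (∀ y, |iteratedDeriv k Q y| ≤ q * Real.exp (-|y|)) →
        ∀ y, 0 ≤ y → |iteratedDeriv k (v t) y| ≤ q + 2 * A := by
      intro k hk1 hk2 hk3 y _
      have h1 := tri (iteratedDeriv k (v t) y) (iteratedDeriv k Q y)
      have h2 := hk3 y
      have h3 := U1 y k hk1 hk2
      have h4 : q * Real.exp (-|y|) ≤ q :=
        mul_le_of_le_one_right hq0 ((hqe y).trans (hex y).2)
      have h5 : s ^ 7 * Real.exp (-|y| / 2) + s ^ 12 ≤ 2 := by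
        have h6 : s ^ 7 * Real.exp (-|y| / 2) ≤ 1 * 1 :=
          mul_le_mul (pow_le_one₀ hs0.le hs1') (hex y).2 (hex y).1.le zero_le_one
        have h7 : s ^ 12 ≤ 1 := pow_le_one₀ hs0.le hs1'
        linarith
      have h8 := mul_le_mul_of_nonneg_left h5 hA_nonneg
      linarith
    have u0 : ∀ y, y ≤ 0 → |v t y - Q y| ≤ 2 * B * ρ := by
      intro y hy
      have h1 := hU.neg0 t htI y hy
      have h2 : C0 * ρ ≤ 2 * B * ρ := mul_le_mul_of_nonneg_right (by linarith) hrho0.le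
      exact h1.trans h2
    have u1 : ∀ k : ℕ, 1 ≤ k → k ≤ 2 → ∀ y, y ≤ 0 →
        |iteratedDeriv k (v t) y - iteratedDeriv k Q y| ≤ 2 * B * ρ := by
      intro k hk1 hk2 y hy
      have h1 := hU.negk t htI y hy k hk1 (by omega)
      rw [← hρ, e32] at h1
      have h2 : s ^ 12 ≤ ρ := by
        rw [hs8]
        exact pw 12 8 (by norm_num)
      have h3 : ρ * Real.exp (-|y| / 2) ≤ ρ := mul_le_of_le_one_right hrho0.le (hex y).2
      have h4 : C0 * (ρ * Real.exp (-|y| / 2) + s ^ 12) ≤ B * (2 * ρ) :=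
        mul_le_mul hBC0 (by linarith) (by positivity) hB0
      linarith
    have tl : ∀ k : ℕ, k ≤ 2 → ∀ y, y ≤ -(2 / s ^ 4) →
        |iteratedDeriv k (v t) y| ≤ B * Real.exp (-(3 / 4 * |y|)) := by
      intro k hk y hy
      have h1 : y ≤ -(2 * rho α t ^ (-((1 : ℝ) / 2))) := by
        rw [← hρ, em12]
        have : 2 * (1 / s ^ 4) = 2 / s ^ 4 := by ring
        rw [this]
        exact hy
      exact ((hU.tail t htI y h1).1 k (by omega)).trans
        (mul_le_mul_of_nonneg_right hBC0 (Real.exp_pos _).le)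
    obtain ⟨i0, j0⟩ := left_int (K := K) (g := Q) hK hs0 hs1' hs8 (by positivity) hq0 hB0 c0 R0
      b0 u0 (by
        intro y hy
        have := tl 0 (by norm_num) y hy
        rwa [iteratedDeriv_zero] at this)
    obtain ⟨i1, j1⟩ := left_int (K := K) (g := iteratedDeriv 1 Q) hK hs0 hs1' hs8 (by positivity)
      hq0 hB0 (by rw [iteratedDeriv_one]; exact c1) R1 (b1 1 le_rfl (by norm_num) R1)
      (u1 1 le_rfl (by norm_num)) (tl 1 (by norm_num))
    obtain ⟨i2, j2⟩ := left_int (K := K) (g := iteratedDeriv 2 Q) hK hs0 hs1' hs8 (by positivity)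
      hq0 hB0 c2 R2 (b1 2 (by norm_num) le_rfl R2) (u1 2 (by norm_num) le_rfl)
      (tl 2 (by norm_num))
    rw [iteratedDeriv_one] at i1 j1
    have hfe : (fun y => (1 - wt K ρ y) ^ 2 * (v t y ^ 2 + deriv (v t) y ^ 2 +
        iteratedDeriv 2 (v t) y ^ 2)) = fun y => ((1 - wt K ρ y) ^ 2 * v t y ^ 2 +
        (1 - wt K ρ y) ^ 2 * deriv (v t) y ^ 2) +
        (1 - wt K ρ y) ^ 2 * iteratedDeriv 2 (v t) y ^ 2 := by
      funext y
      ring
    rw [hfe, e32]
    have i01 : Integrable (fun y => (1 - wt K ρ y) ^ 2 * v t y ^ 2 +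
        (1 - wt K ρ y) ^ 2 * deriv (v t) y ^ 2) := i0.add i1
    refine ⟨i01.add i2, ?_⟩
    rw [integral_add i01 i2, integral_add i0 i1]
    have h6 : 0 ≤ (2 * q + 2 * A) * s ^ 12 := by positivity
    have h7 : D * s ^ 12 = 3 * ((((q + 2 * A) ^ 2 + 2 * q ^ 2 + B ^ 2) * IK + 16 * B ^ 2) *
        s ^ 12) := by rw [hD]; ring
    linarith

end Pool.Agent.Helper94.KV

namespace Pool.Agent.Helper41.KV

/-- Packet `BF`. -/
theorem thm_BF (hQ : S_QF) (hC : S_CURV) (hB : S_FHB) : S_BF :=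
  Pool.Agent.Helper94.KV.bf hQ hC hB

end Pool.Agent.Helper41.KV
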